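import Pool.Agent.R972.OP.Stm4
import Pool.Agent.R372.OP.SYM
import Pool.Agent.R609.OP.Geo

/-!
# OP3-SMG: symmetric functions over order cones, mass and variance
-/

set_option autoImplicit false

namespace Pool.Agent.R766.OP3

open MeasureTheory Set Filter Topology
open scoped ENNReal InnerProductSpace
open Pool.Agent.W695.KH (Eu EU EV VV Sm Pot Uu)
open Pool.Agent.Y506.RG (EW VW LC1 GD ND OB Adm pm)
open Pool.Agent.R972.OP
open Pool.Agent.R372.OP.SYM (perm ties Lc cntL)

variable {n : ℕ}

theorem int_pi (Φ : Eu (Fin n) → ℝ) :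
    ∫ s, Φ s = ∫ y : Fin n → ℝ, Φ (WithLp.toLp 2 y) :=
  ((PiLp.volume_preserving_toLp (Fin n)).integral_comp
    (MeasurableEquiv.toLp 2 (Fin n → ℝ)).measurableEmbedding Φ).symm

theorem intg_pi (Φ : Eu (Fin n) → ℝ) :
    Integrable Φ ↔ Integrable fun y : Fin n → ℝ => Φ (WithLp.toLp 2 y) :=
  ((PiLp.volume_preserving_toLp (Fin n)).integrable_comp_emb
    (MeasurableEquiv.toLp 2 (Fin n → ℝ)).measurableEmbedding).symm

theorem ties_E : ∀ᵐ x : Eu (Fin n), Function.Injective (fun i => x i) :=
  (PiLp.volume_preserving_ofLp (Fin n)).quasiMeasurePreserving.ae ties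

theorem Lc_pos (R : Fin n → Fin n → Prop) (ha : ∀ a b, R a b → R b a → a = b)
    (ht : ∀ a b d, R a b → R b d → R a d) : 0 < Lc R := by
  classical
  have h1 := Pool.Agent.R609.OP.interior_ne R ht ha
  have h2 : 0 < volume (interior (OE R)) := isOpen_interior.measure_pos volume h1
  obtain ⟨x, hx, hi⟩ : ∃ x, x ∈ interior (OE R) ∧ Function.Injective (fun i => x i) := by
    by_contra hcon
    push Not at hcon
    have h3 : volume (interior (OE R)) = 0 :=
      measure_mono_null (fun x hx => hcon x hx) (ae_iff.1 ties_E)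
    rw [h3] at h2
    exact lt_irrefl _ h2
  have hx' := interior_subset hx
  rw [← cntL R (fun i => x i) hi, Finset.card_pos]
  refine ⟨1, ?_⟩
  rw [Finset.mem_filter]
  exact ⟨Finset.mem_univ _, fun a b hab => hx'.2 a b hab⟩

/-- the order cone in the product -/
def CnP (R : Fin n → Fin n → Prop) : Set (Fin n → ℝ) := {x | ∀ i j, R i j → x i ≤ x j}

theorem meas_CnP (R : Fin n → Fin n → Prop) : MeasurableSet (CnP R) := by
  have h : CnP R = ⋂ i, ⋂ j, ⋂ (_ : R i j), {x : Fin n → ℝ | x i ≤ x j} := by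
    ext x; simp only [CnP, mem_ofPred_eq, mem_iInter]
  rw [h]
  exact (isClosed_iInter fun i => isClosed_iInter fun j => isClosed_iInter fun _ =>
    isClosed_le (continuous_apply i) (continuous_apply j)).measurableSet

theorem meas_Cn (R : Fin n → Fin n → Prop) : MeasurableSet (Cn R) := by
  have h : Cn R = (WithLp.ofLp : Eu (Fin n) → (Fin n → ℝ)) ⁻¹' (CnP R) := rfl
  rw [h]
  exact (PiLp.volume_preserving_ofLp (Fin n)).measurable (meas_CnP R)

theorem ind_eq (R : Fin n → Fin n → Prop) (G : Eu (Fin n) → ℝ) (y : Fin n → ℝ) :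
    (Cn R).indicator G (WithLp.toLp 2 y) =
      (CnP R).indicator (fun z => G (WithLp.toLp 2 z)) y := by
  by_cases h : y ∈ CnP R
  · rw [indicator_of_mem h, indicator_of_mem (show WithLp.toLp 2 y ∈ Cn R from h)]
  · rw [indicator_of_notMem h, indicator_of_notMem (show WithLp.toLp 2 y ∉ Cn R from h)]

theorem pt (R : Fin n → Fin n → Prop) (g : (Fin n → ℝ) → ℝ)
    (hG : ∀ (p : Equiv.Perm (Fin n)) (x : Fin n → ℝ), g (fun i => x (p i)) = g x)
    (x : Fin n → ℝ) (hx : Function.Injective x) :
    ∑ p : Equiv.Perm (Fin n), (CnP R).indicator g (fun i => x (p i)) = (Lc R : ℝ) * g x := by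
  classical
  have h1 : ∀ p : Equiv.Perm (Fin n), (CnP R).indicator g (fun i => x (p i)) =
      if (∀ a b, R a b → x (p a) ≤ x (p b)) then g x else 0 := by
    intro p
    by_cases h : ∀ a b, R a b → x (p a) ≤ x (p b)
    · have hm : (fun i => x (p i)) ∈ CnP R := h
      rw [indicator_of_mem hm, if_pos h, hG]
    · have hm : (fun i => x (p i)) ∉ CnP R := h
      rw [indicator_of_notMem hm, if_neg h]
  rw [Finset.sum_congr rfl (fun p _ => h1 p), ← Finset.sum_filter, Finset.sum_const, ← cntL R x hx,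
    nsmul_eq_mul]

theorem E1 (R : Fin n → Fin n → Prop) (g : (Fin n → ℝ) → ℝ) (hg : Integrable g)
    (hG : ∀ (p : Equiv.Perm (Fin n)) (x : Fin n → ℝ), g (fun i => x (p i)) = g x) :
    (Fintype.card (Equiv.Perm (Fin n)) : ℝ) * ∫ x, (CnP R).indicator g x =
      (Lc R : ℝ) * ∫ x, g x := by
  have hint : Integrable ((CnP R).indicator g) := hg.indicator (meas_CnP R)
  have h1 : ∀ p : Equiv.Perm (Fin n),
      Integrable (fun x : Fin n → ℝ => (CnP R).indicator g (fun i => x (p i))) := by
    intro p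
    exact ((perm p).1.integrable_comp hint.1).2 hint
  calc (Fintype.card (Equiv.Perm (Fin n)) : ℝ) * ∫ x, (CnP R).indicator g x
      = ∑ _p : Equiv.Perm (Fin n), ∫ x, (CnP R).indicator g x := by
        rw [Finset.sum_const, Finset.card_univ, nsmul_eq_mul]
    _ = ∑ p : Equiv.Perm (Fin n), ∫ x : Fin n → ℝ, (CnP R).indicator g (fun i => x (p i)) := by
        apply Finset.sum_congr rfl
        intro p _
        rw [(perm p).2]
    _ = ∫ x : Fin n → ℝ, ∑ p : Equiv.Perm (Fin n), (CnP R).indicator g (fun i => x (p i)) := by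
        rw [integral_finsetSum _ (fun p _ => h1 p)]
    _ = ∫ x : Fin n → ℝ, (Lc R : ℝ) * g x := by
        apply integral_congr_ae
        filter_upwards [ties] with x hx
        exact pt R g hG x hx
    _ = (Lc R : ℝ) * ∫ x, g x := by
        rw [integral_const_mul]

theorem smg : S_SMG := by
  intro n R ha ht
  have hL := Lc_pos R ha ht
  have hc : (0 : ℝ) < Fintype.card (Equiv.Perm (Fin n)) := by exact_mod_cast Fintype.card_pos
  refine ⟨(Lc R : ℝ) / Fintype.card (Equiv.Perm (Fin n)), by positivity, ?_⟩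
  intro G hGi hGs
  have h1 : ∫ x in Cn R, G x = ∫ y, (CnP R).indicator (fun z => G (WithLp.toLp 2 z)) y := by
    rw [← integral_indicator (meas_Cn R), int_pi]
    simp only [ind_eq]
  have h2 := E1 R (fun z => G (WithLp.toLp 2 z)) ((intg_pi G).1 hGi)
    (fun p x => hGs p (WithLp.toLp 2 x) (WithLp.toLp 2 fun i => x (p i)) (fun i => rfl))
  rw [h1, int_pi G, div_mul_eq_mul_div, eq_div_iff hc.ne', ← h2]
  ring

/-! ### the moments -/

section mom

variable {h : ℝ → ℝ}

theorem i0 (h0 : ∀ s, 0 ≤ h s) (hm : Measurable h) (hi : Integrable fun s => (1 + s ^ 2) * h s) :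
    Integrable h :=
  Integrable.mono' hi hm.aestronglyMeasurable (Eventually.of_forall fun s => by
    rw [Real.norm_eq_abs, abs_of_nonneg (h0 s)]
    nlinarith [h0 s, mul_nonneg (sq_nonneg s) (h0 s)])

theorem i1 (h0 : ∀ s, 0 ≤ h s) (hm : Measurable h) (hi : Integrable fun s => (1 + s ^ 2) * h s) :
    Integrable fun s => s * h s :=
  Integrable.mono' hi (measurable_id.mul hm).aestronglyMeasurable (Eventually.of_forall fun s => by
    rw [Real.norm_eq_abs, abs_mul, abs_of_nonneg (h0 s)]
    refine mul_le_mul_of_nonneg_right ?_ (h0 s)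
    nlinarith [sq_nonneg (|s| - 1), sq_abs s])

theorem i2 (h0 : ∀ s, 0 ≤ h s) (hm : Measurable h) (hi : Integrable fun s => (1 + s ^ 2) * h s) :
    Integrable fun s => s ^ 2 * h s :=
  Integrable.mono' hi ((measurable_id.pow_const 2).mul hm).aestronglyMeasurable
    (Eventually.of_forall fun s => by
    rw [Real.norm_eq_abs, abs_mul, abs_of_nonneg (h0 s), abs_of_nonneg (sq_nonneg s)]
    refine mul_le_mul_of_nonneg_right ?_ (h0 s)
    linarith)

/-- one factor -/
noncomputable def ph (h : ℝ → ℝ) (i k j : Fin n) (s : ℝ) : ℝ :=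
  (if j = i then s else 1) * ((if j = k then s else 1) * h s)

theorem ph_int (h0 : ∀ s, 0 ≤ h s) (hm : Measurable h)
    (hi : Integrable fun s => (1 + s ^ 2) * h s) (i k j : Fin n) : Integrable (ph h i k j) := by
  unfold ph
  by_cases h1 : j = i <;> by_cases h2 : j = k <;> simp only [h1, h2, if_true, if_false, one_mul]
  · by_cases h3 : i = k
    · simp only [h3, if_true]
      refine (i2 h0 hm hi).congr (Eventually.of_forall fun s => ?_)
      simp only; ring
    · exact absurd (h1.symm.trans h2) h3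
  · have h3 : ¬ i = k := fun e => h2 (h1.trans e)
    simp only [h3, if_false, one_mul]
    exact i1 h0 hm hi
  · have h3 : ¬ k = i := fun e => h1 (h2.trans e)
    simp only [h3, if_false, one_mul]
    exact i1 h0 hm hi
  · exact i0 h0 hm hi

theorem ph_prod (i k : Fin n) (y : Fin n → ℝ) :
    ∏ j, ph h i k j (y j) = y i * (y k * ∏ j, h (y j)) := by
  unfold ph
  rw [Finset.prod_mul_distrib, Finset.prod_mul_distrib]
  simp [Finset.prod_ite_eq']

theorem ph_val (hpos : 0 < ∫ s, h s) (i k j : Fin n) : ∫ s, ph h i k j s =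
    (∫ s, h s) * (if j = i then (if j = k then (∫ s, s ^ 2 * h s) / (∫ s, h s) else mh h) else
      (if j = k then mh h else 1)) := by
  unfold ph mh
  by_cases h1 : j = i <;> by_cases h2 : j = k
  · simp only [if_pos h1, if_pos h2]
    rw [mul_div_cancel₀ _ hpos.ne']
    congr 1; funext s; ring
  · simp only [if_pos h1, if_neg h2, one_mul]
    rw [mul_div_cancel₀ _ hpos.ne']
  · simp only [if_neg h1, if_pos h2, one_mul]
    rw [mul_div_cancel₀ _ hpos.ne']
  · simp only [if_neg h1, if_neg h2, one_mul, mul_one]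

theorem I2v (hpos : 0 < ∫ s, h s) (i k : Fin n) :
    ∫ y : Fin n → ℝ, y i * (y k * ∏ j, h (y j)) =
    (∫ s, h s) ^ n * (mh h ^ 2 + if i = k then vh h else 0) := by
  have e1 : ∫ y : Fin n → ℝ, y i * (y k * ∏ j, h (y j)) = ∏ j, ∫ s, ph h i k j s := by
    rw [← integral_fintype_prod_volume_eq_prod]
    simp only [ph_prod]
  rw [e1]
  simp only [ph_val hpos]
  rw [Finset.prod_mul_distrib, Finset.prod_const, Finset.card_univ, Fintype.card_fin]
  congr 1
  by_cases hik : i = k
  · subst hik
    have : ∀ j : Fin n, (if j = i then (if j = i then (∫ s, s ^ 2 * h s) / (∫ s, h s) else mh h) else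
      (if j = i then mh h else 1)) = if j = i then (∫ s, s ^ 2 * h s) / (∫ s, h s) else 1 := by
      intro j; by_cases hj : j = i <;> simp [hj]
    simp only [this, Finset.prod_ite_eq', Finset.mem_univ, if_true, vh]
    ring
  · have : ∀ j : Fin n, (if j = i then (if j = k then (∫ s, s ^ 2 * h s) / (∫ s, h s) else mh h) else
      (if j = k then mh h else 1)) = (if j = i then mh h else 1) * (if j = k then mh h else 1) := by
      intro j
      by_cases hj : j = i
      · simp [hj, hik]
      · simp [hj]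
    simp only [this, Finset.prod_mul_distrib, Finset.prod_ite_eq', Finset.mem_univ, if_true,
      if_neg hik]
    ring

theorem I0v : ∫ y : Fin n → ℝ, ∏ j, h (y j) = (∫ s, h s) ^ n := by
  rw [integral_fintype_prod_volume_eq_pow, Fintype.card_fin]

theorem I1v (hpos : 0 < ∫ s, h s) (i : Fin n) :
    ∫ y : Fin n → ℝ, y i * ∏ j, h (y j) = (∫ s, h s) ^ n * mh h := by
  have e1 : ∫ y : Fin n → ℝ, y i * ∏ j, h (y j) =
      ∏ j, ∫ s, (if j = i then s else 1) * h s := by
    rw [← integral_fintype_prod_volume_eq_prod]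
    congr 1
    funext y
    rw [Finset.prod_mul_distrib]
    simp [Finset.prod_ite_eq']
  have e2 : ∀ j : Fin n, ∫ s, (if j = i then s else 1) * h s =
      (∫ s, h s) * (if j = i then mh h else 1) := by
    intro j
    unfold mh
    by_cases h1 : j = i
    · simp only [if_pos h1]
      rw [mul_div_cancel₀ _ hpos.ne']
    · simp only [if_neg h1, one_mul, mul_one]
  rw [e1]
  simp only [e2]
  rw [Finset.prod_mul_distrib, Finset.prod_const, Finset.card_univ, Fintype.card_fin]
  simp [Finset.prod_ite_eq']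

theorem g2 (h0 : ∀ s, 0 ≤ h s) (hm : Measurable h)
    (hi : Integrable fun s => (1 + s ^ 2) * h s) (i k : Fin n) :
    Integrable fun y : Fin n → ℝ => y i * (y k * ∏ j, h (y j)) := by
  have := Integrable.fintype_prod (f := fun j => ph h i k j) (fun j => ph_int h0 hm hi i k j)
  refine this.congr (Eventually.of_forall fun y => ?_)
  exact ph_prod i k y

theorem g0 (h0 : ∀ s, 0 ≤ h s) (hm : Measurable h)
    (hi : Integrable fun s => (1 + s ^ 2) * h s) :
    Integrable fun y : Fin n → ℝ => ∏ j, h (y j) :=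
  Integrable.fintype_prod (f := fun _ : Fin n => h) (fun _ => i0 h0 hm hi)

theorem g1 (h0 : ∀ s, 0 ≤ h s) (hm : Measurable h)
    (hi : Integrable fun s => (1 + s ^ 2) * h s) (i : Fin n) :
    Integrable fun y : Fin n → ℝ => y i * ∏ j, h (y j) := by
  have := Integrable.fintype_prod (f := fun (j : Fin n) s => (if j = i then s else 1) * h s)
    (fun j => by
      by_cases h1 : j = i
      · simp only [if_pos h1]; exact i1 h0 hm hi
      · simp only [if_neg h1, one_mul]; exact i0 h0 hm hi)
  refine this.congr (Eventually.of_forall fun y => ?_)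
  simp only
  rw [Finset.prod_mul_distrib]
  simp [Finset.prod_ite_eq']

end mom

theorem vsg (hS : S_SMG) : S_VSG := by
  classical
  intro n R ha ht h h0 hm hi hpos
  obtain ⟨t, t0, hG⟩ := hS n R ha ht
  set H : Eu (Fin n) → ℝ := fun x => ∏ i, h (x i) with hH
  have hwR : ∀ x, wR R h x = (Cn R).indicator H x := fun x => rfl
  have symH : ∀ (p : Equiv.Perm (Fin n)) (x y : Eu (Fin n)), (∀ i, y i = x (p i)) → H y = H x := by
    intro p x y e
    rw [hH]; simp only [e]
    exact Equiv.prod_comp p (fun i => h (x i))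
  have symS : ∀ (p : Equiv.Perm (Fin n)) (x y : Eu (Fin n)), (∀ i, y i = x (p i)) →
      ∑ i, y i = ∑ i, x i := by
    intro p x y e
    simp only [e]
    exact Equiv.sum_comp p (fun i => x i)
  -- integrability
  have gH : Integrable H := (intg_pi H).2 (g0 h0 hm hi)
  have gS : Integrable fun x : Eu (Fin n) => (∑ i, x i) * H x := by
    rw [intg_pi]
    have : (fun y : Fin n → ℝ => (∑ i, (WithLp.toLp 2 y : Eu (Fin n)) i) * H (WithLp.toLp 2 y)) =
        fun y => ∑ i, y i * ∏ j, h (y j) := by
      funext y; rw [Finset.sum_mul]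
    rw [this]
    exact integrable_finsetSum _ fun i _ => g1 h0 hm hi i
  have gS2 : Integrable fun x : Eu (Fin n) => (∑ i, x i) ^ 2 * H x := by
    rw [intg_pi]
    have : (fun y : Fin n → ℝ => (∑ i, (WithLp.toLp 2 y : Eu (Fin n)) i) ^ 2 *
        H (WithLp.toLp 2 y)) = fun y => ∑ i, ∑ k, y i * (y k * ∏ j, h (y j)) := by
      funext y
      rw [sq, Finset.sum_mul_sum, Finset.sum_mul]
      refine Finset.sum_congr rfl fun i _ => ?_
      rw [Finset.sum_mul]
      refine Finset.sum_congr rfl fun k _ => ?_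
      rw [mul_assoc]
    rw [this]
    exact integrable_finsetSum _ fun i _ => integrable_finsetSum _ fun k _ => g2 h0 hm hi i k
  have gN : Integrable fun x : Eu (Fin n) => (1 + ‖x‖ ^ 2) * H x := by
    rw [intg_pi]
    have : (fun y : Fin n → ℝ => (1 + ‖(WithLp.toLp 2 y : Eu (Fin n))‖ ^ 2) *
        H (WithLp.toLp 2 y)) = fun y => (∏ j, h (y j)) + ∑ i, y i * (y i * ∏ j, h (y j)) := by
      funext y
      rw [add_mul, one_mul, EuclideanSpace.norm_sq_eq, Finset.sum_mul]
      congr 1
      refine Finset.sum_congr rfl fun i _ => ?_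
      rw [Real.norm_eq_abs, sq_abs, sq, mul_assoc]
    rw [this]
    exact (g0 h0 hm hi).add (integrable_finsetSum _ fun i _ => g2 h0 hm hi i i)
  -- values
  have vH : ∫ x, H x = (∫ s, h s) ^ n := by rw [int_pi]; exact I0v
  have vS : ∫ x : Eu (Fin n), (∑ i, x i) * H x = (∫ s, h s) ^ n * (n * mh h) := by
    rw [int_pi]
    have : (fun y : Fin n → ℝ => (∑ i, (WithLp.toLp 2 y : Eu (Fin n)) i) * H (WithLp.toLp 2 y)) =
        fun y => ∑ i, y i * ∏ j, h (y j) := by
      funext y; rw [Finset.sum_mul]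
    rw [this, integral_finsetSum _ fun i _ => g1 h0 hm hi i]
    simp only [I1v hpos, Finset.sum_const, Finset.card_univ, Fintype.card_fin, nsmul_eq_mul]
    ring
  have vS2 : ∫ x : Eu (Fin n), (∑ i, x i) ^ 2 * H x =
      (∫ s, h s) ^ n * ((n : ℝ) ^ 2 * mh h ^ 2 + n * vh h) := by
    rw [int_pi]
    have : (fun y : Fin n → ℝ => (∑ i, (WithLp.toLp 2 y : Eu (Fin n)) i) ^ 2 *
        H (WithLp.toLp 2 y)) = fun y => ∑ i, ∑ k, y i * (y k * ∏ j, h (y j)) := by
      funext y
      rw [sq, Finset.sum_mul_sum, Finset.sum_mul]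
      refine Finset.sum_congr rfl fun i _ => ?_
      rw [Finset.sum_mul]
      refine Finset.sum_congr rfl fun k _ => ?_
      rw [mul_assoc]
    rw [this, integral_finsetSum _ fun i _ => integrable_finsetSum _ fun k _ => g2 h0 hm hi i k]
    have e : ∀ i : Fin n, ∫ y : Fin n → ℝ, ∑ k, y i * (y k * ∏ j, h (y j)) =
        (∫ s, h s) ^ n * (n * mh h ^ 2 + vh h) := by
      intro i
      rw [integral_finsetSum _ fun k _ => g2 h0 hm hi i k]
      simp only [I2v hpos]
      rw [← Finset.mul_sum, Finset.sum_add_distrib]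
      simp [Finset.sum_ite_eq]
    simp only [e, Finset.sum_const, Finset.card_univ, Fintype.card_fin, nsmul_eq_mul]
    ring
  -- integrals with the weight
  have key : ∀ v : Eu (Fin n) → ℝ, (∫ x, v x * wR R h x) = ∫ x in Cn R, v x * H x := by
    intro v
    rw [← integral_indicator (meas_Cn R)]
    congr 1
    funext x
    rw [hwR]
    by_cases hx : x ∈ Cn R
    · rw [indicator_of_mem hx, indicator_of_mem hx]
    · rw [indicator_of_notMem hx, indicator_of_notMem hx, mul_zero]
  have w0 : ∫ x, wR R h x = t * (∫ s, h s) ^ n := by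
    have := key (fun _ => 1)
    simp only [one_mul] at this
    rw [this, hG H gH symH, vH]
  have w1 : ∫ x : Eu (Fin n), (∑ i, x i) * wR R h x = t * ((∫ s, h s) ^ n * (n * mh h)) := by
    rw [key, hG _ gS (fun p x y e => by rw [symS p x y e, symH p x y e]), vS]
  have w2 : ∫ x : Eu (Fin n), (∑ i, x i) ^ 2 * wR R h x =
      t * ((∫ s, h s) ^ n * ((n : ℝ) ^ 2 * mh h ^ 2 + n * vh h)) := by
    rw [key, hG _ gS2 (fun p x y e => by rw [symS p x y e, symH p x y e]), vS2]
  have hp : 0 < t * (∫ s, h s) ^ n := mul_pos t0 (pow_pos hpos n)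
  refine ⟨⟨?_, ?_, ?_, ?_⟩, ?_⟩
  · intro x
    rw [hwR]
    exact indicator_nonneg (fun y _ => Finset.prod_nonneg fun i _ => h0 _) x
  · have : (fun x => (1 + ‖x‖ ^ 2) * wR R h x) =
        (Cn R).indicator fun x => (1 + ‖x‖ ^ 2) * H x := by
      funext x
      rw [hwR]
      by_cases hx : x ∈ Cn R
      · rw [indicator_of_mem hx, indicator_of_mem hx]
      · rw [indicator_of_notMem hx, indicator_of_notMem hx, mul_zero]
    rw [this]
    exact gN.indicator (meas_Cn R)
  · rw [w0]; exact hp
  · have : wR R h = (Cn R).indicator H := rfl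
    rw [this]
    refine Measurable.indicator ?_ (meas_Cn R)
    refine Finset.measurable_prod _ fun i _ => hm.comp ?_
    exact (Pool.Agent.R609.OP.cont i).measurable
  · unfold VW EW
    rw [w0, w1, w2]
    have hpn := (pow_pos hpos n).ne'
    have ht0 := t0.ne'
    field_simp
    ring

end Pool.Agent.R766.OP3
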